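import Pool.Agent.E8helper60.NP.StmA

set_option autoImplicit false

open scoped Classical

namespace Pool.Agent.E8helper63.NP

open Pool.Agent.E8helper60.NP

section G

variable {p : ℕ} [hpf : Fact p.Prime] {G : Type} [Group G] [Finite G]

/-- the conjugation action of a subgroup on the `p`-regular elements -/
@[reducible] def act (p : ℕ) (P : Subgroup G) : MulAction P {x : G // ¬ p ∣ orderOf x} where
  smul g x := ⟨(g : G) * x * (g : G)⁻¹, by
    rw [← MulAut.conj_apply, MulEquiv.orderOf_eq]; exact x.2⟩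
  one_smul x := by
    apply Subtype.ext
    show ((1 : P) : G) * x * ((1 : P) : G)⁻¹ = x
    simp
  mul_smul g h x := by
    apply Subtype.ext
    show ((g * h : P) : G) * x * ((g * h : P) : G)⁻¹ = (g : G) * ((h : G) * x * (h : G)⁻¹) * (g : G)⁻¹
    simp [mul_assoc]

/-- an exponent for the `p'`-part -/
theorem exists_exp (p : ℕ) [Fact p.Prime] (G : Type) [Group G] [Finite G] : ∃ (a m e : ℕ), Nat.card G = p ^ a * m ∧ p.Coprime m ∧
    p ^ a ∣ e ∧ e ≡ 1 [MOD m] := by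
  have hp : p.Prime := Fact.out
  obtain ⟨a, m, hm, h⟩ := Nat.exists_eq_pow_mul_and_not_dvd (n := Nat.card G) Nat.card_pos.ne' p hp.ne_one
  have hc : p.Coprime m := (Nat.Prime.coprime_iff_not_dvd hp).2 hm
  have hm0 : 0 < m := Nat.pos_of_ne_zero (fun e => hm (e ▸ dvd_zero p))
  refine ⟨a, m, (p ^ a) ^ Nat.totient m, h, hc, ?_, ?_⟩
  · exact dvd_pow_self _ (Nat.totient_pos.2 hm0).ne'
  · exact Nat.ModEq.pow_totient (Nat.Coprime.pow_left a hc)

theorem mem_of_pelt (P : Sylow p G) {u : G} (hu : u ∈ Subgroup.centralizer (P : Set G)) {k : ℕ}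
    (hk : u ^ p ^ k = 1) : u ∈ (P : Subgroup G) := by
  have h1 : IsPGroup p (Subgroup.zpowers u) := by
    rintro ⟨x, hx⟩
    obtain ⟨j, rfl⟩ := Subgroup.mem_zpowers_iff.1 hx
    refine ⟨k, ?_⟩
    apply Subtype.ext
    show (u ^ j) ^ p ^ k = 1
    rw [← zpow_natCast, ← zpow_mul, mul_comm, zpow_mul, zpow_natCast, hk, one_zpow]
  have h2 : IsPGroup p ((P : Subgroup G) ⊔ Subgroup.zpowers u : Subgroup G) := by
    apply IsPGroup.to_sup_of_normal_left' P.isPGroup' h1
    rw [Subgroup.zpowers_le]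
    rw [Subgroup.mem_normalizer_iff]
    intro h
    have hcomm : ∀ g ∈ (P : Subgroup G), g * u = u * g := fun g hg => (Subgroup.mem_centralizer_iff.1 hu g hg)
    constructor
    · intro hh
      have e : u * h * u⁻¹ = h := by
        rw [← hcomm h hh]; group
      rw [e]; exact hh
    · intro hh
      have e := hcomm _ hh
      have e2 : u * h * u⁻¹ = h := by
        have : u * (u * h * u⁻¹) = u * h := by rw [← e]; group
        exact mul_left_cancel this
      rwa [e2] at hh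
  have h3 := P.is_maximal' h2 le_sup_left
  have h4 : Subgroup.zpowers u ≤ (P : Subgroup G) := by
    calc Subgroup.zpowers u ≤ (P : Subgroup G) ⊔ Subgroup.zpowers u := le_sup_right
      _ = (P : Subgroup G) := h3
  exact h4 (Subgroup.mem_zpowers u)

theorem not_dvd_card_regular : ¬ p ∣ Nat.card {x : G // ¬ p ∣ orderOf x} := by
  have hp : p.Prime := Fact.out
  obtain ⟨P⟩ : Nonempty (Sylow p G) := inferInstance
  letI := act p (P : Subgroup G)
  have h1 := P.isPGroup'.card_modEq_card_fixedPoints {x : G // ¬ p ∣ orderOf x}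
  obtain ⟨a, m, e, hcard, hcop, he1, he2⟩ := exists_exp p G
  have hm0 : 0 < m := Nat.pos_of_ne_zero (fun h => by
    rw [h, mul_zero] at hcard; exact Nat.card_pos.ne' hcard)
  set D : Subgroup G := Subgroup.centralizer (P : Set G) with hD
  set Z : Subgroup G := (P : Subgroup G) ⊓ D with hZ
  -- exponent facts
  have hreg : ∀ x : G, ¬ p ∣ orderOf x → x ^ e = x := by
    intro x hx
    have h2 : orderOf x ∣ m := by
      have h3 : orderOf x ∣ p ^ a * m := hcard ▸ orderOf_dvd_natCard x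
      exact (Nat.Coprime.pow_right a ((Nat.Prime.coprime_iff_not_dvd hp).2 hx).symm).dvd_of_dvd_mul_left h3
    have h4 : e ≡ 1 [MOD orderOf x] := he2.of_dvd h2
    have h5 := pow_eq_pow_iff_modEq.2 h4
    rwa [pow_one] at h5
  have hpel : ∀ z ∈ (P : Subgroup G), z ^ e = 1 := by
    intro z hz
    obtain ⟨k, hk⟩ := P.isPGroup' ⟨z, hz⟩
    have hk' : z ^ p ^ k = 1 := congrArg Subtype.val hk
    have h2 : orderOf z ∣ p ^ k := orderOf_dvd_of_pow_eq_one hk'
    have h3 : orderOf z ∣ p ^ a * m := hcard ▸ orderOf_dvd_natCard z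
    have h4 : Nat.Coprime (orderOf z) m := Nat.Coprime.coprime_dvd_left h2 (Nat.Coprime.pow_left k hcop)
    have h5 : orderOf z ∣ p ^ a := h4.dvd_of_dvd_mul_right h3
    exact orderOf_dvd_iff_pow_eq_one.1 (h5.trans he1)
  have hpart : ∀ y : G, ¬ p ∣ orderOf (y ^ e) := by
    intro y hd
    have h2 : (y ^ e) ^ m = 1 := by
      rw [← pow_mul]
      apply orderOf_dvd_iff_pow_eq_one.1
      exact (hcard ▸ orderOf_dvd_natCard y : orderOf y ∣ p ^ a * m).trans (Nat.mul_dvd_mul_right he1 m)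
    have h3 : p ∣ m := hd.trans (orderOf_dvd_of_pow_eq_one h2)
    exact (Nat.Prime.coprime_iff_not_dvd hp).1 hcop h3
  have hpart2 : ∀ y : G, (y * (y ^ e)⁻¹) ^ p ^ a = 1 := by
    intro y
    have hc : Commute y (y ^ e)⁻¹ := (Commute.self_pow y e).inv_right
    rw [hc.mul_pow, inv_pow, ← pow_mul, mul_inv_eq_one]
    rw [pow_eq_pow_iff_modEq]
    have h2 : orderOf y ∣ p ^ a * m := hcard ▸ orderOf_dvd_natCard y
    have h3 : e * p ^ a ≡ 1 * p ^ a [MOD m * p ^ a] := he2.mul_right' (p ^ a)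
    rw [one_mul, mul_comm m] at h3
    exact (h3.of_dvd h2).symm
  -- the fixed points
  have hcomm : ∀ x ∈ D, ∀ g ∈ (P : Subgroup G), g * x = x * g := fun x hx g hg =>
    Subgroup.mem_centralizer_iff.1 hx g hg
  have e1 : Nat.card (MulAction.fixedPoints (P : Subgroup G) {x : G // ¬ p ∣ orderOf x}) =
      Nat.card {x : D // ¬ p ∣ orderOf (x : G)} := by
    apply Nat.card_congr
    refine ⟨fun x => ⟨⟨(x.1 : G), ?_⟩, x.1.2⟩, fun x => ⟨⟨(x.1 : G), x.2⟩, ?_⟩, fun x => rfl, fun x => rfl⟩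
    · rw [hD, Subgroup.mem_centralizer_iff]
      intro g hg
      have h2 := congrArg Subtype.val (x.2 ⟨g, hg⟩)
      have h3 : g * (x.1 : G) * g⁻¹ = (x.1 : G) := h2
      exact mul_inv_eq_iff_eq_mul.1 h3
    · rintro ⟨g, hg⟩
      apply Subtype.ext
      show g * (x.1 : G) * g⁻¹ = (x.1 : G)
      exact mul_inv_eq_iff_eq_mul.2 (hcomm _ x.1.2 g hg)
  -- the decomposition of `D`
  have e2 : Nat.card D = Nat.card {x : D // ¬ p ∣ orderOf (x : G)} * Nat.card Z := by
    rw [← Nat.card_prod]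
    refine (Nat.card_congr (Equiv.ofBijective (fun q : {x : D // ¬ p ∣ orderOf (x : G)} × Z =>
      (⟨(q.1.1 : G) * (q.2 : G), D.mul_mem q.1.1.2 q.2.2.2⟩ : D)) ⟨?_, ?_⟩)).symm
    · rintro ⟨⟨⟨x, hx⟩, hx'⟩, ⟨z, hz⟩⟩ ⟨⟨⟨x2, hx2⟩, hx2'⟩, ⟨z2, hz2⟩⟩ h
      have h2 : x * z = x2 * z2 := congrArg Subtype.val h
      have h3 : ∀ (x z : G), x ∈ D → ¬ p ∣ orderOf x → z ∈ Z → (x * z) ^ e = x := by
        intro x z hx hx' hz
        have hc : Commute x z := (hcomm x hx z hz.1).symm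
        rw [hc.mul_pow, hreg x hx', hpel z hz.1, mul_one]
      have h4 : x = x2 := by
        rw [← h3 x z hx hx' hz, h2, h3 x2 z2 hx2 hx2' hz2]
      subst h4
      have h5 : z = z2 := mul_left_cancel h2
      subst h5
      rfl
    · rintro ⟨y, hy⟩
      have hye : y ^ e ∈ D := D.pow_mem hy e
      have hz : y * (y ^ e)⁻¹ ∈ D := D.mul_mem hy (D.inv_mem hye)
      have hz2 : y * (y ^ e)⁻¹ ∈ (P : Subgroup G) := mem_of_pelt P hz (hpart2 y)
      refine ⟨⟨⟨⟨y ^ e, hye⟩, hpart y⟩, ⟨y * (y ^ e)⁻¹, hz2, hz⟩⟩, ?_⟩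
      apply Subtype.ext
      show y ^ e * (y * (y ^ e)⁻¹) = y
      have hc : Commute (y ^ e) y := (Commute.self_pow y e).symm
      rw [← mul_assoc, hc.eq, mul_assoc, mul_inv_cancel, mul_one]
  intro hd
  have h2 : p ∣ Nat.card {x : D // ¬ p ∣ orderOf (x : G)} := by
    rw [← e1]
    exact (h1.dvd_iff (dvd_refl p)).1 hd
  -- `Z` is a `p`-group
  have hZp : IsPGroup p Z := P.isPGroup'.to_le inf_le_left
  obtain ⟨k, hk⟩ := IsPGroup.iff_card.1 hZp
  have h3 : p ^ (k + 1) ∣ Nat.card D := by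
    rw [e2, hk, pow_succ, mul_comm (p ^ k) p]
    exact Nat.mul_dvd_mul h2 (dvd_refl _)
  obtain ⟨K, hK⟩ := Sylow.exists_subgroup_card_pow_prime p h3
  have h4 : K.map D.subtype ≤ Z := by
    rintro _ ⟨⟨y, hy⟩, hyK, rfl⟩
    have h5 : (⟨y, hy⟩ : D) ^ p ^ (k + 1) = 1 := by
      have := pow_card_eq_one' (x := (⟨⟨y, hy⟩, hyK⟩ : K))
      rw [hK] at this
      exact congrArg Subtype.val this
    have h6 : y ^ p ^ (k + 1) = 1 := congrArg Subtype.val h5
    exact ⟨mem_of_pelt P hy h6, hy⟩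
  have h7 : Nat.card (K.map D.subtype) = p ^ (k + 1) := by
    rw [Nat.card_congr (K.equivMapOfInjective D.subtype D.subtype_injective).symm.toEquiv, hK]
  have h8 : p ^ (k + 1) ≤ p ^ k := by
    rw [← h7, ← hk]
    exact Subgroup.card_le_of_le h4
  have h9 : p ^ k < p ^ (k + 1) := Nat.pow_lt_pow_right hp.one_lt (Nat.lt_succ_self k)
  omega

end G

theorem t_NZ : S_NZ := by
  intro p _ Γ _ _ C
  have h : nreg p C = Nat.card {x : C // ¬ p ∣ orderOf x} := by
    unfold nreg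
    apply Nat.card_congr
    refine ⟨fun x => ⟨⟨x.1, x.2.1⟩, by rw [Subgroup.orderOf_mk]; exact x.2.2⟩,
      fun x => ⟨(x.1 : Γ), x.1.2, by rw [Subgroup.orderOf_coe]; exact x.2⟩, fun x => rfl, fun x => rfl⟩
  rw [h]
  exact not_dvd_card_regular

end Pool.Agent.E8helper63.NP
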