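import Pool.Agent.E8helper60.NP.StmA

set_option autoImplicit false

open scoped Classical

namespace Pool.Agent.E8helper63.NP

open Pool.Agent.E8helper60.NP

theorem t_SEM : S_SEM := by
  intro p _ H _ _ C hC
  have hp : p.Prime := Fact.out
  let V := (H ⧸ C) → Multiplicative (ZMod p)
  let φ : H →* MulAut V := mulAutArrow
  have hφ : ∀ (h : H) (f : V) (x : H ⧸ C), φ h f x = f (h⁻¹ • x) := fun h f x => rfl
  haveI : Finite (Multiplicative (ZMod p)) := by
    haveI : NeZero p := ⟨hp.ne_zero⟩
    exact inferInstanceAs (Finite (ZMod p))
  haveI : Finite V := inferInstance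
  haveI : Finite (V ⋊[φ] H) := Finite.of_equiv _ (SemidirectProduct.equivProd (φ := φ)).symm
  refine ⟨V ⋊[φ] H, inferInstance, inferInstance, SemidirectProduct.rightHom,
    SemidirectProduct.rightHom_surjective, ?_, ?_⟩
  · rintro ⟨g, hg⟩
    rw [← SemidirectProduct.range_inl_eq_ker_rightHom] at hg
    obtain ⟨f, rfl⟩ := hg
    refine ⟨1, ?_⟩
    have h1 : f ^ p = 1 := by
      funext x
      rw [Pi.pow_apply, Pi.one_apply]
      apply Multiplicative.toAdd.injective
      rw [toAdd_pow, toAdd_one, nsmul_eq_mul, CharP.cast_eq_zero, zero_mul]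
    apply Subtype.ext
    show (SemidirectProduct.inl f : V ⋊[φ] H) ^ (p ^ 1) = 1
    rw [pow_one, ← map_pow, h1, map_one]
  · -- the centraliser
    have key : ∀ (g : V ⋊[φ] H), g ∈ Subgroup.centralizer
        ((SemidirectProduct.rightHom : V ⋊[φ] H →* H).ker : Set (V ⋊[φ] H)) ↔ ∀ u : V, φ g.right u = u := by
      intro g
      rw [Subgroup.mem_centralizer_iff]
      constructor
      · intro h u
        have h1 := h (SemidirectProduct.inl u) (by
          rw [SetLike.mem_coe, ← SemidirectProduct.range_inl_eq_ker_rightHom]
          exact ⟨u, rfl⟩)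
        have h2 := congrArg SemidirectProduct.left h1
        rw [SemidirectProduct.mul_left, SemidirectProduct.mul_left, SemidirectProduct.left_inl,
          SemidirectProduct.right_inl, map_one, MulAut.one_apply, mul_comm u g.left] at h2
        exact (mul_left_cancel h2).symm
      · intro h x hx
        rw [SetLike.mem_coe, ← SemidirectProduct.range_inl_eq_ker_rightHom] at hx
        obtain ⟨u, rfl⟩ := hx
        apply SemidirectProduct.ext
        · rw [SemidirectProduct.mul_left, SemidirectProduct.mul_left, SemidirectProduct.left_inl,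
            SemidirectProduct.right_inl, map_one, MulAut.one_apply, h u, mul_comm]
        · rw [SemidirectProduct.mul_right, SemidirectProduct.mul_right, SemidirectProduct.right_inl, one_mul,
            mul_one]
    ext h
    rw [Subgroup.mem_map]
    constructor
    · rintro ⟨g, hg, rfl⟩
      rw [key] at hg
      show g.right ∈ C
      have h1 := congrFun (hg (Pi.mulSingle ((1 : H) : H ⧸ C) (Multiplicative.ofAdd (1 : ZMod p)))) ((1 : H) : H ⧸ C)
      rw [hφ, Pi.mulSingle_eq_same] at h1
      by_contra hcon
      have h2 : g.right⁻¹ • ((1 : H) : H ⧸ C) ≠ ((1 : H) : H ⧸ C) := by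
        intro e
        rw [MulAction.Quotient.smul_coe, smul_eq_mul, mul_one] at e
        have h3 : (g.right⁻¹ : H) ∈ C := by
          rw [← QuotientGroup.eq_one_iff]
          exact e
        exact hcon (inv_mem_iff.1 h3)
      rw [Pi.mulSingle_eq_of_ne h2] at h1
      have h4 : (0 : ZMod p) = 1 := by
        have := congrArg Multiplicative.toAdd h1
        simpa using this
      exact zero_ne_one h4
    · intro hh
      refine ⟨SemidirectProduct.inr h, ?_, ?_⟩
      · rw [key]
        intro u
        funext x
        rw [SemidirectProduct.right_inr, hφ]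
        congr 1
        induction x using QuotientGroup.induction_on with
        | H z =>
          rw [MulAction.Quotient.smul_coe, smul_eq_mul, QuotientGroup.eq]
          have : (h⁻¹ * z)⁻¹ * z = z⁻¹ * h * z := by group
          rw [this]
          have := hC.conj_mem h hh z⁻¹
          simpa using this
      · rw [SemidirectProduct.rightHom_inr]

end Pool.Agent.E8helper63.NP
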